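import Pool.Agent.H.MP_02e1b1_nt.B

namespace Pool.Agent.Results.MP_02e1b1_nt.Counter
open Filter Topology Pool.Agent.H.MP_02e1b1_nt

theorem result (η : ℕ → ℝ) (hη : Tendsto η atTop (𝓝 0)) :
    ∃ α β γ : ℝ, 0 < α ∧ β ^ 2 < 4 * α * γ ∧ Irrational α ∧ ¬(dK α β γ =O[atTop] η) := by
  obtain ⟨α, h1, h2, h3⟩ := main η hη
  exact ⟨α, 1, 1 / 2, by linarith, by linarith, h2, h3⟩

end Pool.Agent.Results.MP_02e1b1_nt.Counter
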